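import Pool.Agent.H63.VR.Surg

/-!
# Row FHB: a shortest system to `Y` meets the pair in few vertices (helper63)
-/

set_option autoImplicit false

namespace Pool.Agent.H63.VR

open Finset Pool.Agent.H48.CE Pool.Agent.H30.VR

/-- a path of a shortest system has only its last vertex in `Y` -/
theorem only_last {V ι : Type} [Fintype ι] {G : SimpleGraph V} {a : ι → V} {Y : Finset V}
    {Q : ι → List V} (hQ : MPS G a Y Q) {i : ι} {y : V} (hy : y ∈ Y) (hyi : y ∈ Q i) :
    (Q i).getLast? = some y := by
  classical
  obtain ⟨l₁, l₂, hL⟩ := List.append_of_mem hyi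
  rcases List.eq_nil_or_concat l₂ with h | ⟨m, z, h⟩
  · subst h
    rw [hL, last_app]
    rfl
  · exfalso
    have h0 := okl hQ.1 i
    rw [hL] at h0
    obtain ⟨c1, c2, n1, n2, d1, L1⟩ := okl_split h0
    have hR : Okl G (a i) Y (l₁ ++ [y]) := by
      refine ⟨c1, n1, ?_, ⟨y, hy, by rw [last_app]; rfl⟩⟩
      rw [head_app l₁ _ l₂, h0.head]
    have hd : ∀ v ∈ l₁ ++ [y], ∀ j, j ≠ i → v ∉ Q j := by
      intro v hv j hj hc
      refine hQ.1.disj i j (Ne.symm hj) v ?_ hc
      rw [hL]
      rw [List.mem_append, List.mem_singleton] at hv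
      rw [List.mem_append, List.mem_cons]
      tauto
    have h1 := hQ.2 _ (ps_upd hQ.1 i hR hd)
    have h2 := tl_upd Q i (l₁ ++ [y])
    rw [hL, h] at h2
    simp only [List.length_append, List.length_cons, List.length_nil, List.length_concat] at h2
    omega

theorem pf_FHB (hCUT : T_CUT) : T_FHB := by
  classical
  intro V ι _ _ G a Y Q A B d t hQ hAB haA hLR hd ht hYA hAY hA
  -- the vertices of `Y` on the system
  have hY : (Y.filter (fun v => ∃ i, v ∈ Q i)).card ≤ Fintype.card ι := by
    have h1 : ∀ v ∈ Y.filter (fun v => ∃ i, v ∈ Q i), ∃ i, (Q i).getLast? = some v := by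
      intro v hv
      obtain ⟨hv1, i, hi⟩ := mem_filter.mp hv
      exact ⟨i, only_last hQ hv1 hi⟩
    rcases isEmpty_or_nonempty ι with hι | hι
    · have : Y.filter (fun v => ∃ i, v ∈ Q i) = ∅ := by
        rw [filter_eq_empty_iff]
        rintro v _ ⟨i, _⟩
        exact hι.elim i
      rw [this, card_empty]
      exact Nat.zero_le _
    · let g : V → ι := fun v =>
        if h : ∃ i, (Q i).getLast? = some v then h.choose else Classical.arbitrary ι
      have hg : ∀ v ∈ Y.filter (fun v => ∃ i, v ∈ Q i), (Q (g v)).getLast? = some v := by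
        intro v hv
        have h := h1 v hv
        show (Q (if h : ∃ i, (Q i).getLast? = some v then h.choose
          else Classical.arbitrary ι)).getLast? = some v
        rw [dif_pos h]
        exact h.choose_spec
      rw [← card_univ]
      refine card_le_card_of_injOn g (fun v _ => mem_coe.mpr (mem_univ _)) ?_
      intro v hv w hw hvw
      have e1 := hg v hv
      have e2 := hg w hw
      rw [hvw, e2] at e1
      exact (Option.some.inj e1).symm
  have hYc : A.card ≤ Y.card + t := by
    have h1 : A ⊆ Y ∪ A.filter (fun v => v ∉ Y) := by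
      intro v hv
      rw [mem_union, mem_filter]
      tauto
    have := (card_le_card h1).trans (card_union_le _ _)
    omega
  set Y' := Y.filter (fun v => ¬ ∃ i, v ∈ Q i) with hY'
  have hYs : (Y.filter (fun v => ∃ i, v ∈ Q i)).card + Y'.card = Y.card :=
    card_filter_add_card_filter_not _
  have hY't : t ≤ Y'.card := by omega
  refine ⟨?_, ?_⟩
  · have h1 : A.filter (fun v => ∃ i, v ∈ Q i) ⊆ A.filter (fun v => v ∉ Y) ∪
        Y.filter (fun v => ∃ i, v ∈ Q i) := by
      intro v hv
      rw [mem_union, mem_filter, mem_filter]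
      rw [mem_filter] at hv
      tauto
    have := (card_le_card h1).trans (card_union_le _ _)
    omega
  · -- vertices of `B` without neighbours in `Y'`
    have h0 : (B.filter (fun v => ∀ y ∈ Y', ¬ G.Adj y v)).card < t := by
      by_contra hc
      push Not at hc
      obtain ⟨y, hy, b, hb, hyb⟩ := hLR.hole hd ht
        ((filter_subset _ _ : Y' ⊆ Y).trans hYA) (filter_subset _ _) hY't hc
      exact (mem_filter.mp hb).2 y hy hyb
    -- the others are the last but one vertices
    have h1 : ∀ b ∈ (B.filter (fun v => ∃ i, v ∈ Q i)).filter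
        (fun v => ¬ ∀ y ∈ Y', ¬ G.Adj y v), ∃ i, ∃ l z, Q i = l ++ [b, z] := by
      intro b hb
      obtain ⟨hb1, hb2⟩ := mem_filter.mp hb
      obtain ⟨hbB, i, hi⟩ := mem_filter.mp hb1
      push Not at hb2
      obtain ⟨y, hy, hyb⟩ := hb2
      obtain ⟨hyY, hyn⟩ := mem_filter.mp hy
      obtain ⟨l₁, l₂, hL⟩ := List.append_of_mem hi
      have hyQ : ∀ j, y ∉ Q j := fun j hj => hyn ⟨j, hj⟩
      obtain ⟨Q', hQ', htl⟩ := hCUT G a Y Q hQ.1 i l₁ l₂ b y hL hyY hyQ hyb.symm
      have h2 := hQ.2 Q' hQ'
      have h3 : l₂.length ≤ 1 := by omega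
      have h4 : l₂ ≠ [] := by
        intro h
        subst h
        obtain ⟨z, hz, h5⟩ := hQ.1.last i
        rw [hL, last_app] at h5
        have h6 : b = z := by simpa using h5
        subst h6
        exact hAB b (hYA hz) hbB
      obtain ⟨z, rfl⟩ : ∃ z, l₂ = [z] := by
        rw [← List.length_eq_one_iff]
        have := List.length_pos_iff.mpr h4
        omega
      exact ⟨i, l₁, z, hL⟩
    have h2 : ((B.filter (fun v => ∃ i, v ∈ Q i)).filter
        (fun v => ¬ ∀ y ∈ Y', ¬ G.Adj y v)).card ≤ Fintype.card ι := by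
      rcases isEmpty_or_nonempty ι with hι | hι
      · have : (B.filter (fun v => ∃ i, v ∈ Q i)).filter
            (fun v => ¬ ∀ y ∈ Y', ¬ G.Adj y v) = ∅ := by
          rw [eq_empty_iff_forall_notMem]
          intro v hv
          obtain ⟨i, _⟩ := h1 v hv
          exact hι.elim i
        rw [this, card_empty]
        exact Nat.zero_le _
      · let g : V → ι := fun v =>
          if h : ∃ i, ∃ l z, Q i = l ++ [v, z] then h.choose else Classical.arbitrary ι
        have hg : ∀ v ∈ (B.filter (fun v => ∃ i, v ∈ Q i)).filter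
            (fun v => ¬ ∀ y ∈ Y', ¬ G.Adj y v), ∃ l z, Q (g v) = l ++ [v, z] := by
          intro v hv
          have h := h1 v hv
          show ∃ l z, Q (if h : ∃ i, ∃ l z, Q i = l ++ [v, z] then h.choose
            else Classical.arbitrary ι) = l ++ [v, z]
          rw [dif_pos h]
          exact h.choose_spec
        rw [← card_univ]
        refine card_le_card_of_injOn g (fun v _ => mem_coe.mpr (mem_univ _)) ?_
        intro v hv w hw hvw
        obtain ⟨l, z, e1⟩ := hg v hv
        obtain ⟨l', z', e2⟩ := hg w hw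
        rw [hvw, e2] at e1
        have h5 := (List.append_inj' e1 rfl).2
        have h6 : w = v ∧ z' = z := by simpa using h5
        exact h6.1.symm
    have h3 : B.filter (fun v => ∃ i, v ∈ Q i) ⊆ B.filter (fun v => ∀ y ∈ Y', ¬ G.Adj y v) ∪
        (B.filter (fun v => ∃ i, v ∈ Q i)).filter (fun v => ¬ ∀ y ∈ Y', ¬ G.Adj y v) := by
      intro v hv
      rw [mem_union]
      by_cases h : ∀ y ∈ Y', ¬ G.Adj y v
      · left
        exact mem_filter.mpr ⟨(mem_filter.mp hv).1, h⟩
      · right
        exact mem_filter.mpr ⟨hv, h⟩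
    have := (card_le_card h3).trans (card_union_le _ _)
    omega

end Pool.Agent.H63.VR
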