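import Pool.Agent.H30.VR.Targets

/-!
# Rows FWC, FEW, FHB: a shortest system of paths and a lower regular pair (helper63)
-/

set_option autoImplicit false

namespace Pool.Agent.H63.VR

open Finset Pool.Agent.H48.CE Pool.Agent.H30.VR

/-- two positions of a list -/
theorem split_idx {V : Type} [DecidableEq V] (L : List V) (x x' : V) (hx' : x' ∈ L)
    (h : L.idxOf x < L.idxOf x') :
    ∃ l₁ l₂ l₃, L = l₁ ++ x :: (l₂ ++ x' :: l₃) ∧ l₂.length + L.idxOf x + 1 = L.idxOf x' := by
  have h2 : L.idxOf x' < L.length := List.idxOf_lt_length_iff.mpr hx'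
  have h1 : L.idxOf x < L.length := h.trans h2
  have e1 : L[L.idxOf x] = x := List.getElem_idxOf h1
  have e2 : L[L.idxOf x'] = x' := List.getElem_idxOf h2
  obtain ⟨c, hc⟩ : ∃ c, L.idxOf x' = L.idxOf x + 1 + c := ⟨L.idxOf x' - L.idxOf x - 1, by omega⟩
  refine ⟨L.take (L.idxOf x), (L.drop (L.idxOf x + 1)).take c, L.drop (L.idxOf x' + 1), ?_, ?_⟩
  · have h3 : L.drop (L.idxOf x) = x :: L.drop (L.idxOf x + 1) := by
      rw [List.drop_eq_getElem_cons h1, e1]
    have h4 : (L.drop (L.idxOf x + 1)).drop c = x' :: L.drop (L.idxOf x' + 1) := by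
      rw [List.drop_drop, ← hc, List.drop_eq_getElem_cons h2, e2]
    calc L = L.take (L.idxOf x) ++ L.drop (L.idxOf x) := (List.take_append_drop _ _).symm
      _ = L.take (L.idxOf x) ++ x :: L.drop (L.idxOf x + 1) := by rw [h3]
      _ = L.take (L.idxOf x) ++ x :: ((L.drop (L.idxOf x + 1)).take c ++
          (L.drop (L.idxOf x + 1)).drop c) := by rw [List.take_append_drop]
      _ = _ := by rw [h4]
  · rw [List.length_take, List.length_drop]
    omega

theorem pf_FWC (hSHT : T_SHT) : T_FWC := by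
  classical
  intro V ι _ _ G a Y Q A B d t hQ hAB hLR hd hd1 hB hN hBt
  by_contra hcon
  push Not at hcon
  have ht : 1 ≤ t := by omega
  set B' := B.filter (fun v => ¬ ∃ i, v ∈ Q i) with hB'
  have hBc : (B.filter (fun v => ∃ i, v ∈ Q i)).card + B'.card = B.card :=
    card_filter_add_card_filter_not _
  have hB't : t ≤ B'.card := by omega
  have htyp : (A.filter (fun a => ((nb G B' a).card : ℝ) < d * B'.card)).card < t :=
    hLR.typ ht (filter_subset _ _ : B' ⊆ B) hB't
  set Ty := (A.filter (fun v => ∃ i, v ∈ Q i)).filter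
    (fun v => d * (B'.card : ℝ) ≤ ((nb G B' v).card : ℝ)) with hTy
  have h1 : (A.filter (fun v => ∃ i, v ∈ Q i)).card ≤ Ty.card +
      (A.filter (fun a => ((nb G B' a).card : ℝ) < d * B'.card)).card := by
    have h2 : A.filter (fun v => ∃ i, v ∈ Q i) ⊆ Ty ∪
        A.filter (fun a => ((nb G B' a).card : ℝ) < d * B'.card) := by
      intro v hv
      rw [mem_union]
      rcases le_or_gt (d * (B'.card : ℝ)) ((nb G B' v).card : ℝ) with h | h
      · left
        exact mem_filter.mpr ⟨hv, h⟩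
      · right
        exact mem_filter.mpr ⟨(mem_filter.mp hv).1, h⟩
    exact (card_le_card h2).trans (card_union_le _ _)
  have hTyc : t < Ty.card := by omega
  -- one path with many typical vertices
  obtain ⟨j, hj⟩ : ∃ j, 3 * (1 / d + 3) < ((Ty.filter (fun v => v ∈ Q j)).card : ℝ) := by
    by_contra hc
    push Not at hc
    have h2 : Ty ⊆ univ.biUnion (fun j => Ty.filter (fun v => v ∈ Q j)) := by
      intro v hv
      obtain ⟨i, hi⟩ := (mem_filter.mp (mem_filter.mp hv).1).2
      exact mem_biUnion.mpr ⟨i, mem_univ i, mem_filter.mpr ⟨hv, hi⟩⟩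
    have h3 : (Ty.card : ℝ) ≤ ∑ j, ((Ty.filter (fun v => v ∈ Q j)).card : ℝ) := by
      exact_mod_cast (card_le_card h2).trans card_biUnion_le
    have h4 : ∑ j, ((Ty.filter (fun v => v ∈ Q j)).card : ℝ) ≤
        ∑ _j : ι, 3 * (1 / d + 3) := sum_le_sum fun j _ => hc j
    rw [sum_const, nsmul_eq_mul, card_univ] at h4
    have h5 : (t : ℝ) < Ty.card := by exact_mod_cast hTyc
    nlinarith
  set Tj := Ty.filter (fun v => v ∈ Q j) with hTj
  -- one residue class
  obtain ⟨r, hr⟩ : ∃ r : ℕ, 1 / d < ((Tj.filter (fun v => (Q j).idxOf v % 3 = r)).card : ℝ) := by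
    by_contra hc
    push Not at hc
    have h2 : Tj ⊆ (Tj.filter (fun v => (Q j).idxOf v % 3 = 0)) ∪
        ((Tj.filter (fun v => (Q j).idxOf v % 3 = 1)) ∪
        (Tj.filter (fun v => (Q j).idxOf v % 3 = 2))) := by
      intro v hv
      rw [mem_union, mem_union]
      have : (Q j).idxOf v % 3 = 0 ∨ (Q j).idxOf v % 3 = 1 ∨ (Q j).idxOf v % 3 = 2 := by omega
      rcases this with h | h | h
      · left
        exact mem_filter.mpr ⟨hv, h⟩
      · right
        left
        exact mem_filter.mpr ⟨hv, h⟩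
      · right
        right
        exact mem_filter.mpr ⟨hv, h⟩
    have h3 := (card_le_card h2).trans ((card_union_le _ _).trans
      (Nat.add_le_add_left (card_union_le _ _) _))
    have h4 : (Tj.card : ℝ) ≤ ((Tj.filter (fun v => (Q j).idxOf v % 3 = 0)).card : ℝ) +
        (((Tj.filter (fun v => (Q j).idxOf v % 3 = 1)).card : ℝ) +
        ((Tj.filter (fun v => (Q j).idxOf v % 3 = 2)).card : ℝ)) := by exact_mod_cast h3
    linarith [hc 0, hc 1, hc 2]
  set S := Tj.filter (fun v => (Q j).idxOf v % 3 = r) with hS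
  have hS1 : ∀ v ∈ S, v ∈ Q j ∧ (Q j).idxOf v % 3 = r ∧
      d * (B'.card : ℝ) ≤ ((nb G B' v).card : ℝ) := by
    intro v hv
    have h2 := mem_filter.mp hv
    have h3 := mem_filter.mp h2.1
    exact ⟨h3.2, h2.2, (mem_filter.mp h3.1).2⟩
  -- two of them have a common neighbour
  obtain ⟨x, hx, x', hx', hne, u, hu, hu'⟩ : ∃ x ∈ S, ∃ x' ∈ S, x ≠ x' ∧
      ∃ u, u ∈ nb G B' x ∧ u ∈ nb G B' x' := by
    by_contra hc
    push Not at hc
    have h2 : (S.biUnion (fun v => nb G B' v)).card = ∑ v ∈ S, (nb G B' v).card := by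
      refine card_biUnion ?_
      intro x hx x' hx' hne
      show Disjoint (nb G B' x) (nb G B' x')
      rw [Finset.disjoint_left]
      intro u hu hu'
      exact hc x hx x' hx' hne u hu hu'
    have h3 : (S.biUnion (fun v => nb G B' v)).card ≤ B'.card := by
      refine card_le_card ?_
      rw [biUnion_subset]
      intro v _
      exact nb_subset B' v
    have h4 : ∑ v ∈ S, d * (B'.card : ℝ) ≤ ∑ v ∈ S, ((nb G B' v).card : ℝ) :=
      sum_le_sum fun v hv => (hS1 v hv).2.2
    rw [sum_const, nsmul_eq_mul] at h4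
    have h5 : ∑ v ∈ S, ((nb G B' v).card : ℝ) ≤ (B'.card : ℝ) := by
      rw [h2] at h3
      exact_mod_cast h3
    have h6 : (0 : ℝ) < B'.card := by
      have : 0 < B'.card := by omega
      exact_mod_cast this
    have h7 : 1 < (S.card : ℝ) * d := by
      rw [div_lt_iff₀ hd] at hr
      exact hr
    nlinarith
  -- the shortcut
  have key : ∀ x ∈ S, ∀ x' ∈ S, (Q j).idxOf x < (Q j).idxOf x' → u ∈ nb G B' x →
      u ∈ nb G B' x' → False := by
    intro x hx x' hx' hlt hu hu'
    obtain ⟨l₁, l₂, l₃, hL, hlen⟩ := split_idx (Q j) x x' (hS1 x' hx').1 hlt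
    rw [mem_nb] at hu hu'
    have hun : ∀ j, u ∉ Q j := by
      intro i hi
      exact (mem_filter.mp hu.1).2 ⟨i, hi⟩
    obtain ⟨Q', hQ', htl⟩ := hSHT G a Y Q hQ.1 j l₁ l₂ l₃ [u] x x' hL
      (by
        intro v hv
        rw [List.mem_singleton] at hv
        subst hv
        exact hun)
      (List.nodup_singleton u)
      (by
        rw [List.singleton_append, List.isChain_cons_cons, List.isChain_cons_cons]
        exact ⟨hu.2, hu'.2.symm, List.isChain_singleton x'⟩)
    have h2 := hQ.2 Q' hQ'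
    have h3 := (hS1 x hx).2.1
    have h4 := (hS1 x' hx').2.1
    rw [List.length_singleton] at htl
    omega
  have hidx : (Q j).idxOf x ≠ (Q j).idxOf x' := by
    intro h
    apply hne
    have h2 : (Q j).idxOf x < (Q j).length := List.idxOf_lt_length_iff.mpr (hS1 x hx).1
    have h3 : (Q j).idxOf x' < (Q j).length := List.idxOf_lt_length_iff.mpr (hS1 x' hx').1
    have e1 : (Q j)[(Q j).idxOf x] = x := List.getElem_idxOf h2
    have e2 : (Q j)[(Q j).idxOf x'] = x' := List.getElem_idxOf h3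
    rw [← e1, ← e2]
    simp only [h]
  rcases lt_or_gt_of_ne hidx with h | h
  · exact key x hx x' hx' h hu hu'
  · exact key x' hx' x hx h hu' hu

theorem pf_FEW (hFWE : T_FWE) (hFWC : T_FWC) : T_FEW := by
  classical
  intro V ι _ _ G a Y Q A B d t r hQ hAB hLR hd hd1 hc hA hAr h6 h3
  have hBA : ∀ v ∈ B, v ∉ A := fun v hv h => hAB v h hv
  have ht : (0 : ℝ) < t := by
    have h7 : (0 : ℝ) ≤ 6 * Fintype.card ι * (r + 1 : ℝ) := by positivity
    by_contra hc
    push Not at hc
    nlinarith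
  rcases lt_or_ge (B.filter (fun v => ∃ i, v ∈ Q i)).card t with hb | hb
  · exact ⟨hFWC G a Y Q A B d t hQ hAB hLR hd hd1 (by omega) h3 hb, by omega⟩
  · rcases lt_or_ge (A.filter (fun v => ∃ i, v ∈ Q i)).card t with ha | ha
    · exact ⟨by omega, hFWC G a Y Q B A d t hQ hBA hLR.symm hd hd1 (by omega) h3 ha⟩
    · exfalso
      have h1 := hLR _ (filter_subset _ A) _ (filter_subset _ B) ha hb
      have h2 := hFWE G a Y Q A B hQ hAB
      have h2' : (ee G (A.filter (fun v => ∃ i, v ∈ Q i)) (B.filter (fun v => ∃ i, v ∈ Q i)) : ℝ) ≤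
          3 * Fintype.card ι * ((A.card : ℝ) + B.card) := by exact_mod_cast h2
      have h4 : (A.card : ℝ) ≤ r * t := by exact_mod_cast hAr
      have h5 : (B.card : ℝ) = A.card := by exact_mod_cast hc.symm
      have ha' : (t : ℝ) ≤ ((A.filter (fun v => ∃ i, v ∈ Q i)).card : ℝ) := by exact_mod_cast ha
      have hb' : (t : ℝ) ≤ ((B.filter (fun v => ∃ i, v ∈ Q i)).card : ℝ) := by exact_mod_cast hb
      have h7 : d * t * t ≤ d * ((A.filter (fun v => ∃ i, v ∈ Q i)).card : ℝ) *
          ((B.filter (fun v => ∃ i, v ∈ Q i)).card : ℝ) := by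
        have h8 : d * t ≤ d * ((A.filter (fun v => ∃ i, v ∈ Q i)).card : ℝ) :=
          mul_le_mul_of_nonneg_left ha' hd.le
        exact mul_le_mul h8 hb' ht.le (by positivity)
      have h8 : (3 : ℝ) * Fintype.card ι * ((A.card : ℝ) + B.card) ≤
          6 * Fintype.card ι * r * t := by
        rw [h5]
        have : (0 : ℝ) ≤ Fintype.card ι := Nat.cast_nonneg _
        nlinarith
      have h9 : d * t * t ≤ 6 * Fintype.card ι * r * t := by linarith
      have h10 : d * t ≤ 6 * Fintype.card ι * r := le_of_mul_le_mul_right h9 ht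
      have h11 : (0 : ℝ) ≤ Fintype.card ι := Nat.cast_nonneg _
      nlinarith

end Pool.Agent.H63.VR
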