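import Pool.Agent.H30.VR.Targets

/-!
# Rows SHT, CUT, SWP: surgery of systems of paths (helper63)
-/

set_option autoImplicit false

namespace Pool.Agent.H63.VR

open Finset Pool.Agent.H48.CE Pool.Agent.H30.VR

/-- the conditions on one list -/
structure Okl {V : Type} (G : SimpleGraph V) (s : V) (Y : Finset V) (R : List V) : Prop where
  chain : R.IsChain G.Adj
  nodup : R.Nodup
  head : R.head? = some s
  last : ∃ y ∈ Y, R.getLast? = some y

theorem okl {V ι : Type} {G : SimpleGraph V} {a : ι → V} {Y : Finset V} {Q : ι → List V}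
    (h : PS G a Y Q) (i : ι) : Okl G (a i) Y (Q i) :=
  ⟨h.chain i, h.nodup i, h.head i, h.last i⟩

theorem tl_upd {V ι : Type} [Fintype ι] [DecidableEq ι] (Q : ι → List V) (i : ι) (R : List V) :
    tl (Function.update Q i R) + (Q i).length = tl Q + R.length := by
  unfold tl
  rw [← add_sum_erase univ (fun j => (Function.update Q i R j).length) (mem_univ i),
    ← add_sum_erase univ (fun j => (Q j).length) (mem_univ i)]
  have h1 : ∑ j ∈ univ.erase i, (Function.update Q i R j).length =
      ∑ j ∈ univ.erase i, (Q j).length := by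
    refine sum_congr rfl fun j hj => ?_
    rw [Function.update_of_ne (ne_of_mem_erase hj)]
  rw [h1]
  simp only [Function.update_self]
  omega

theorem ps_upd {V ι : Type} [DecidableEq ι] {G : SimpleGraph V} {a : ι → V} {Y : Finset V}
    {Q : ι → List V} (h : PS G a Y Q) (i : ι) {R : List V} (hR : Okl G (a i) Y R)
    (hd : ∀ v ∈ R, ∀ j, j ≠ i → v ∉ Q j) : PS G a Y (Function.update Q i R) := by
  have hok : ∀ j, Okl G (a j) Y (Function.update Q i R j) := by
    intro j
    by_cases hj : j = i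
    · subst hj
      rw [Function.update_self]
      exact hR
    · rw [Function.update_of_ne hj]
      exact okl h j
  refine ⟨fun j => (hok j).chain, fun j => (hok j).nodup, fun j => (hok j).head,
    fun j => (hok j).last, ?_⟩
  intro j l hjl v hv
  by_cases hj : j = i
  · subst hj
    rw [Function.update_self] at hv
    rw [Function.update_of_ne (Ne.symm hjl)]
    exact hd v hv l (Ne.symm hjl)
  · rw [Function.update_of_ne hj] at hv
    by_cases hl : l = i
    · subst hl
      rw [Function.update_self]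
      intro hc
      exact hd v hc j hj hv
    · rw [Function.update_of_ne hl]
      exact h.disj j l hjl v hv

theorem head_app {V : Type} (l t t' : List V) (x : V) :
    (l ++ x :: t).head? = (l ++ x :: t').head? := by
  cases l with
  | nil => rfl
  | cons b l => rfl

theorem last_app {V : Type} (l t : List V) (x : V) :
    (l ++ x :: t).getLast? = (x :: t).getLast? :=
  List.getLast?_append_of_ne_nil l (by simp)

/-- the conditions on the first list, split -/
theorem okl_split {V : Type} {G : SimpleGraph V} {s : V} {Y : Finset V} {l₁ t : List V} {x : V}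
    (h : Okl G s Y (l₁ ++ x :: t)) : (l₁ ++ [x]).IsChain G.Adj ∧ (x :: t).IsChain G.Adj ∧
    (l₁ ++ [x]).Nodup ∧ (x :: t).Nodup ∧ (∀ v ∈ l₁, v ∉ x :: t) ∧
    ∃ y ∈ Y, (x :: t).getLast? = some y := by
  have h1 := List.isChain_split.mp h.chain
  have h2 := List.nodup_append.mp h.nodup
  refine ⟨h1.1, h1.2, ?_, h2.2.1, fun v hv hc => h2.2.2 v hv v hc rfl, ?_⟩
  · rw [List.nodup_append]
    refine ⟨h2.1, List.nodup_singleton x, ?_⟩
    intro b hb c hc
    rw [List.mem_singleton] at hc
    subst hc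
    exact h2.2.2 b hb c List.mem_cons_self
  · obtain ⟨y, hy, h3⟩ := h.last
    rw [last_app] at h3
    exact ⟨y, hy, h3⟩

theorem pf_SHT : T_SHT := by
  classical
  intro V ι _ G a Y Q hQ i l₁ l₂ l₃ m x x' hi hm hmn hmc
  have h0 := okl hQ i
  rw [hi] at h0
  obtain ⟨c1, c2, n1, n2, d1, L1⟩ := okl_split h0
  have h1 : Okl G x Y ((x :: l₂) ++ x' :: l₃) := ⟨c2, n2, rfl, L1⟩
  obtain ⟨c3, c4, n3, n4, d2, L2⟩ := okl_split h1
  have hR : Okl G (a i) Y (l₁ ++ x :: (m ++ x' :: l₃)) := by
    refine ⟨?_, ?_, ?_, ?_⟩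
    · rw [List.isChain_split]
      refine ⟨c1, ?_⟩
      rw [← List.cons_append, List.isChain_split]
      exact ⟨hmc, c4⟩
    · have e1 : l₁ ++ x :: (m ++ x' :: l₃) = (l₁ ++ [x]) ++ (m ++ x' :: l₃) := by simp
      rw [e1]
      refine List.Perm.nodup (l := m ++ ((l₁ ++ [x]) ++ x' :: l₃)) ?_ ?_
      · exact (List.perm_append_comm_assoc _ _ _).symm
      · rw [List.nodup_append]
        refine ⟨hmn, ?_, ?_⟩
        · rw [List.nodup_append]
          refine ⟨n1, n4, ?_⟩
          intro b hb c hc hbc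
          subst hbc
          rw [List.mem_append, List.mem_singleton] at hb
          rcases hb with hb | rfl
          · exact d1 b hb (by
              rw [← List.cons_append, List.mem_append]
              right
              exact hc)
          · exact d2 b List.mem_cons_self hc
        · intro b hb c hc hbc
          subst hbc
          apply hm b hb i
          rw [hi]
          rw [List.append_assoc, List.mem_append, List.mem_append, List.mem_singleton] at hc
          rw [List.mem_append, ← List.cons_append, List.mem_append, List.mem_cons]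
          tauto
    · rw [head_app l₁ _ (l₂ ++ x' :: l₃), h0.head]
    · obtain ⟨y, hy, h2⟩ := L2
      refine ⟨y, hy, ?_⟩
      rw [last_app, ← List.cons_append, last_app]
      exact h2
  have hd : ∀ v ∈ l₁ ++ x :: (m ++ x' :: l₃), ∀ j, j ≠ i → v ∉ Q j := by
    intro v hv j hj hc
    have h2 : v ∈ m ∨ v ∈ Q i := by
      rw [hi]
      rw [List.mem_append, ← List.cons_append, List.mem_append, List.mem_cons] at hv ⊢
      tauto
    rcases h2 with h2 | h2
    · exact hm v h2 j hc
    · exact hQ.disj i j (Ne.symm hj) v h2 hc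
  refine ⟨Function.update Q i (l₁ ++ x :: (m ++ x' :: l₃)), ps_upd hQ i hR hd, ?_⟩
  have h3 := tl_upd Q i (l₁ ++ x :: (m ++ x' :: l₃))
  rw [hi] at h3
  simp only [List.length_append, List.length_cons] at h3
  omega

theorem pf_CUT : T_CUT := by
  classical
  intro V ι _ G a Y Q hQ i l₁ l₂ x y hi hy hyQ hxy
  have h0 := okl hQ i
  rw [hi] at h0
  obtain ⟨c1, c2, n1, n2, d1, L1⟩ := okl_split h0
  have hmem : ∀ v ∈ l₁ ++ [x], v ∈ Q i := by
    intro v hv
    rw [hi]
    rw [List.mem_append, List.mem_singleton] at hv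
    rw [List.mem_append, List.mem_cons]
    tauto
  have e1 : l₁ ++ [x, y] = (l₁ ++ [x]) ++ [y] := by simp
  have hR : Okl G (a i) Y (l₁ ++ [x, y]) := by
    refine ⟨?_, ?_, ?_, ?_⟩
    · rw [List.isChain_split]
      refine ⟨c1, ?_⟩
      rw [List.isChain_cons_cons]
      exact ⟨hxy, List.isChain_singleton y⟩
    · rw [e1, List.nodup_append]
      refine ⟨n1, List.nodup_singleton y, ?_⟩
      intro b hb c hc hbc
      rw [List.mem_singleton] at hc
      subst hc
      subst hbc
      exact hyQ i (hmem b hb)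
    · rw [head_app l₁ _ l₂, h0.head]
    · exact ⟨y, hy, by rw [last_app]; rfl⟩
  have hd : ∀ v ∈ l₁ ++ [x, y], ∀ j, j ≠ i → v ∉ Q j := by
    intro v hv j hj hc
    rw [e1, List.mem_append, List.mem_singleton] at hv
    rcases hv with hv | rfl
    · exact hQ.disj i j (Ne.symm hj) v (hmem v hv) hc
    · exact hyQ j hc
  refine ⟨Function.update Q i (l₁ ++ [x, y]), ps_upd hQ i hR hd, ?_⟩
  have h3 := tl_upd Q i (l₁ ++ [x, y])
  rw [hi] at h3
  simp only [List.length_append, List.length_cons, List.length_nil] at h3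
  omega

/-- the tail of one list after the head of another one -/
theorem okl_join {V : Type} {G : SimpleGraph V} {s s' : V} {Y : Finset V}
    {l₁ t m₁ m₃ : List V} {x y : V} (h : Okl G s Y (l₁ ++ x :: t))
    (h' : Okl G s' Y (m₁ ++ y :: m₃)) (hxy : G.Adj x y)
    (hd : ∀ v ∈ l₁ ++ x :: t, v ∉ m₁ ++ y :: m₃) : Okl G s Y (l₁ ++ x :: y :: m₃) := by
  obtain ⟨c1, c2, n1, n2, d1, L1⟩ := okl_split h
  obtain ⟨c3, c4, n3, n4, d2, L2⟩ := okl_split h'
  refine ⟨?_, ?_, ?_, ?_⟩
  · rw [List.isChain_split]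
    refine ⟨c1, ?_⟩
    rw [List.isChain_cons_cons]
    exact ⟨hxy, c4⟩
  · have e1 : l₁ ++ x :: y :: m₃ = (l₁ ++ [x]) ++ y :: m₃ := by simp
    rw [e1, List.nodup_append]
    refine ⟨n1, n4, ?_⟩
    intro b hb c hc hbc
    subst hbc
    refine hd b ?_ ?_
    · rw [List.mem_append, List.mem_singleton] at hb
      rw [List.mem_append, List.mem_cons]
      tauto
    · rw [List.mem_append]
      right
      exact hc
  · rw [head_app l₁ _ t, h.head]
  · obtain ⟨z, hz, h2⟩ := L2
    refine ⟨z, hz, ?_⟩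
    rw [last_app, ← List.singleton_append, last_app]
    exact h2

theorem pf_SWP : T_SWP := by
  classical
  intro V ι _ G a Y Q hQ i j l₁ l₂ l₃ m₁ m₂ m₃ x x' y y' hij hi hj hxy hyx
  have ei : Q i = (l₁ ++ x :: l₂) ++ x' :: l₃ := by rw [hi]; simp
  have ej : Q j = (m₁ ++ y' :: m₂) ++ y :: m₃ := by rw [hj]; simp
  have hoi := okl hQ i
  have hoj := okl hQ j
  have hdij : ∀ v ∈ Q i, v ∉ Q j := fun v hv => hQ.disj i j hij v hv
  have hdji : ∀ v ∈ Q j, v ∉ Q i := fun v hv => hQ.disj j i (Ne.symm hij) v hv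
  have h1 : Okl G (a i) Y (l₁ ++ x :: y :: m₃) := by
    refine okl_join (t := l₂ ++ x' :: l₃) (m₁ := m₁ ++ y' :: m₂) (s' := a j) ?_ ?_ hxy ?_
    · rw [← hi]
      exact hoi
    · rw [← ej]
      exact hoj
    · rw [← hi, ← ej]
      exact hdij
  have h2 : Okl G (a j) Y (m₁ ++ y' :: x' :: l₃) := by
    refine okl_join (t := m₂ ++ y :: m₃) (m₁ := l₁ ++ x :: l₂) (s' := a i) ?_ ?_ hyx ?_
    · rw [← hj]
      exact hoj
    · rw [← ei]
      exact hoi
    · rw [← hj, ← ei]
      exact hdji
  -- membership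
  have mi : ∀ v ∈ l₁ ++ x :: y :: m₃, (v ∈ l₁ ++ [x] ∧ v ∈ Q i) ∨ (v ∈ y :: m₃ ∧ v ∈ Q j) := by
    intro v hv
    rw [hi, hj]
    simp only [List.mem_append, List.mem_cons, List.not_mem_nil,
      or_false] at hv ⊢
    tauto
  have mj : ∀ v ∈ m₁ ++ y' :: x' :: l₃, (v ∈ m₁ ++ [y'] ∧ v ∈ Q j) ∨
      (v ∈ x' :: l₃ ∧ v ∈ Q i) := by
    intro v hv
    rw [hi, hj]
    simp only [List.mem_append, List.mem_cons, List.not_mem_nil,
      or_false] at hv ⊢
    tauto
  have ni : ∀ v ∈ l₁ ++ [x], v ∉ x' :: l₃ := by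
    intro v hv hc
    have h3 := hoi.nodup
    have e1 : Q i = (l₁ ++ [x]) ++ (l₂ ++ x' :: l₃) := by rw [hi]; simp
    rw [e1, List.nodup_append] at h3
    refine h3.2.2 v hv v ?_ rfl
    rw [List.mem_append]
    right
    exact hc
  have nj : ∀ v ∈ m₁ ++ [y'], v ∉ y :: m₃ := by
    intro v hv hc
    have h3 := hoj.nodup
    have e1 : Q j = (m₁ ++ [y']) ++ (m₂ ++ y :: m₃) := by rw [hj]; simp
    rw [e1, List.nodup_append] at h3
    refine h3.2.2 v hv v ?_ rfl
    rw [List.mem_append]
    right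
    exact hc
  have hdis : ∀ v ∈ l₁ ++ x :: y :: m₃, v ∉ m₁ ++ y' :: x' :: l₃ := by
    intro v hv hc
    rcases mi v hv with h3 | h3 <;> rcases mj v hc with h4 | h4
    · exact hdij v h3.2 h4.2
    · exact ni v h3.1 h4.1
    · exact nj v h4.1 h3.1
    · exact hdij v h4.2 h3.2
  set Q' : ι → List V := Function.update (Function.update Q i (l₁ ++ x :: y :: m₃)) j
    (m₁ ++ y' :: x' :: l₃) with hQ'
  have q1 : Q' i = l₁ ++ x :: y :: m₃ := by
    rw [hQ', Function.update_of_ne hij, Function.update_self]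
  have q2 : Q' j = m₁ ++ y' :: x' :: l₃ := by
    rw [hQ', Function.update_self]
  have q3 : ∀ l, l ≠ i → l ≠ j → Q' l = Q l := by
    intro l h3 h4
    rw [hQ', Function.update_of_ne h4, Function.update_of_ne h3]
  have hok : ∀ l, Okl G (a l) Y (Q' l) := by
    intro l
    by_cases hl : l = i
    · subst hl
      rw [q1]
      exact h1
    · by_cases hl' : l = j
      · subst hl'
        rw [q2]
        exact h2
      · rw [q3 l hl hl']
        exact okl hQ l
  have hi' : ∀ v ∈ Q' i, v ∈ Q i ∨ v ∈ Q j := by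
    intro v hv
    rw [q1] at hv
    rcases mi v hv with h | h
    · exact Or.inl h.2
    · exact Or.inr h.2
  have hj' : ∀ v ∈ Q' j, v ∈ Q i ∨ v ∈ Q j := by
    intro v hv
    rw [q2] at hv
    rcases mj v hv with h | h
    · exact Or.inr h.2
    · exact Or.inl h.2
  have hsym : ∀ l l', l ≠ l' → (∀ v ∈ Q' l, v ∉ Q' l') → ∀ v ∈ Q' l', v ∉ Q' l :=
    fun l l' _ h v hv hc => h v hc hv
  have hio : ∀ l, l ≠ i → l ≠ j → ∀ v ∈ Q' l, v ∉ Q' i := by
    intro l h3 h4 v hv hc
    rw [q3 l h3 h4] at hv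
    rcases hi' v hc with h5 | h5
    · exact hQ.disj l i h3 v hv h5
    · exact hQ.disj l j h4 v hv h5
  have hjo : ∀ l, l ≠ i → l ≠ j → ∀ v ∈ Q' l, v ∉ Q' j := by
    intro l h3 h4 v hv hc
    rw [q3 l h3 h4] at hv
    rcases hj' v hc with h5 | h5
    · exact hQ.disj l i h3 v hv h5
    · exact hQ.disj l j h4 v hv h5
  have hij' : ∀ v ∈ Q' i, v ∉ Q' j := by
    rw [q1, q2]
    exact hdis
  refine ⟨Q', ⟨fun l => (hok l).chain, fun l => (hok l).nodup, fun l => (hok l).head,
    fun l => (hok l).last, ?_⟩, ?_⟩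
  · intro l l' hll
    by_cases h3 : l = i
    · subst h3
      by_cases h4 : l' = j
      · subst h4
        exact hij'
      · exact hsym l' l (Ne.symm hll) (hio l' (Ne.symm hll) h4)
    · by_cases h4 : l = j
      · subst h4
        by_cases h5 : l' = i
        · subst h5
          exact hsym l' l (Ne.symm hll) hij'
        · exact hsym l' l (Ne.symm hll) (hjo l' h5 (Ne.symm hll))
      · by_cases h5 : l' = i
        · subst h5
          exact hio l h3 h4
        · by_cases h6 : l' = j
          · subst h6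
            exact hjo l h3 h4
          · rw [q3 l h3 h4, q3 l' h5 h6]
            exact hQ.disj l l' hll
  · have t1 := tl_upd Q i (l₁ ++ x :: y :: m₃)
    have t2 := tl_upd (Function.update Q i (l₁ ++ x :: y :: m₃)) j (m₁ ++ y' :: x' :: l₃)
    rw [Function.update_of_ne (Ne.symm hij), ← hQ', hj] at t2
    rw [hi] at t1
    simp only [List.length_append, List.length_cons] at t1 t2
    omega

end Pool.Agent.H63.VR
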